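import Pool.Agent.ATT.Stmts
import Pool.Agent.Helper97_ANR.MAS
import Pool.Agent.Helper77_LQF.JAL

/-!
# Row MAJ (helper97): the jet of the total mass of the change in a kill run
-/

set_option autoImplicit false

open scoped BigOperators Matrix

noncomputable section

namespace Pool.Agent.ATT.H97

open Pool.Agent.LE.QF (HJ HM gG LL dC JalStmt)
open Pool.Agent.KIL (KJ)
open Pool.Agent.ANR.H97 (mas ro mas_nonneg ro_nonneg mas_cs)

/-- the jet of one entry -/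
theorem ent_jet (hJ : JalStmt) {ι : Type} [Fintype ι] [DecidableEq ι] (q : ℝ × (ι → ℝ))
    (F : ℝ × (ι → ℝ) → ℂ) (v v₀ l : ℂ) (g : ι → ℂ) (h : HJ F q v g l) :
    HJ (fun r => ‖F r - v₀‖ ^ 2) q (‖v - v₀‖ ^ 2)
      (fun c => 2 * ((starRingEnd ℂ) (v - v₀) * g c).re)
      (2 * ((starRingEnd ℂ) (v - v₀) * l).re + ∑ c, ‖g c‖ ^ 2) := by
  obtain ⟨hcC, _, haddC, hconjC, _, _, _, _⟩ := hJ ι ℂ q
  have a1 := (haddC _ _ _ _ _ _ _ _ h (hcC v₀)).2.1
  have a2 := (hconjC _ _ _ _ a1).1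
  have a3 := (haddC _ _ _ _ _ _ _ _ a1 a2).2.2
  have a4 := (hconjC _ _ _ _ a3).2.1
  have f1 : ∀ z z' : ℂ, (z * (starRingEnd ℂ) z' + z' * (starRingEnd ℂ) z).re =
      2 * ((starRingEnd ℂ) z * z').re := by
    intro z z'
    simp only [Complex.add_re, Complex.mul_re, Complex.conj_re, Complex.conj_im]
    ring
  have e0 : (fun r => ‖F r - v₀‖ ^ 2) =
      fun r => RCLike.re ((F r - v₀) * (starRingEnd ℂ) (F r - v₀)) := by
    funext r
    rw [RCLike.mul_conj]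
    norm_cast
  have e1 : ‖v - v₀‖ ^ 2 = RCLike.re ((v - v₀) * (starRingEnd ℂ) (v - v₀)) := by
    rw [RCLike.mul_conj]
    norm_cast
  have e2 : (fun c => 2 * ((starRingEnd ℂ) (v - v₀) * g c).re) =
      fun c => RCLike.re ((v - v₀) * (starRingEnd ℂ) (g c - 0) +
        (g c - 0) * (starRingEnd ℂ) (v - v₀)) := by
    funext c
    simp only [sub_zero, RCLike.re_to_complex]
    rw [f1]
  have e3 : 2 * ((starRingEnd ℂ) (v - v₀) * l).re + ∑ c, ‖g c‖ ^ 2 =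
      RCLike.re ((v - v₀) * (starRingEnd ℂ) (l - 0) + (l - 0) * (starRingEnd ℂ) (v - v₀) +
        ∑ c, (g c - 0) * (starRingEnd ℂ) (g c - 0)) := by
    simp only [sub_zero, RCLike.re_to_complex]
    rw [Complex.add_re, f1, Complex.re_sum]
    congr 1
    refine Finset.sum_congr rfl fun c _ => ?_
    rw [Complex.mul_conj, Complex.ofReal_re, Complex.normSq_eq_norm_sq]
  rw [e0, e1, e2, e3]
  exact a4

theorem maj : MajStmt := by
  intro ι X _ _ _ _ e q Gm kp G Go κ g μ A₃ hK hA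
  have hJ : JalStmt := Pool.Agent.LE.QF.H77.jal
  obtain ⟨_, _, haddR, _, _, hsumR, htR, _⟩ := hJ ι ℝ q
  -- the absorption on `A₃`
  have hk : ∀ x ∈ A₃, HJ (fun r : ℝ × (ι → ℝ) => kp r.1 x) q (κ x) (fun _ => 0) 0 := by
    intro x hx
    have h1 := htR (fun t => kp t x) (hK.hk x).1
    have h2 : deriv (fun t => kp t x) q.1 = 0 := hK.hd0 x (by
      rintro ⟨c, rfl⟩
      exact hA c hx)
    rw [h2] at h1
    have h3 : kp q.1 x = κ x := (hK.hk x).2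
    rw [h3] at h1
    exact h1
  -- one entry
  obtain ⟨gr, hgr⟩ : ∃ gr : X → X → ι → ℝ, gr = fun x y c =>
    2 * ((starRingEnd ℂ) (G x y - Go x y) * -(G x (e c) * G (e c) y)).re := ⟨_, rfl⟩
  obtain ⟨lr, hlr⟩ : ∃ lr : X → X → ℝ, lr = fun x y =>
    2 * ((starRingEnd ℂ) (G x y - Go x y) * ∑ c, G x (e c) * μ c * G (e c) y).re +
      ∑ c, ‖-(G x (e c) * G (e c) y)‖ ^ 2 := ⟨_, rfl⟩
  have h1 : ∀ x y, HJ (fun r => ‖Gm r x y - Go x y‖ ^ 2) q (‖G x y - Go x y‖ ^ 2)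
      (gr x y) (lr x y) := by
    intro x y
    rw [hgr, hlr]
    exact ent_jet hJ q _ _ (Go x y) _ _ (hK.hG x y)
  -- with weights
  have h2 : ∀ x ∈ A₃, ∀ y ∈ A₃, HJ (fun r => kp r.1 y * ‖Gm r x y - Go x y‖ ^ 2) q
      (κ y * ‖G x y - Go x y‖ ^ 2) (fun c => κ y * gr x y c) (κ y * lr x y) := by
    intro x _ y hy
    have a1 := (haddR _ _ _ _ _ _ _ _ (hk y hy) (h1 x y)).2.2
    simpa using a1
  have h3 : ∀ x ∈ A₃, HJ (fun r => mx (kp r.1) A₃ (Gm r) Go x) q (mx κ A₃ G Go x)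
      (fun c => ∑ y ∈ A₃, κ y * gr x y c) (∑ y ∈ A₃, κ y * lr x y) := by
    intro x hx
    exact hsumR X A₃ (fun y r => kp r.1 y * ‖Gm r x y - Go x y‖ ^ 2)
      (fun y => κ y * ‖G x y - Go x y‖ ^ 2) (fun y => κ y * lr x y)
      (fun y c => κ y * gr x y c) (h2 x hx)
  have h4 : ∀ x ∈ A₃, HJ (fun r => kp r.1 x * mx (kp r.1) A₃ (Gm r) Go x) q
      (κ x * mx κ A₃ G Go x) (fun c => κ x * ∑ y ∈ A₃, κ y * gr x y c)
      (κ x * ∑ y ∈ A₃, κ y * lr x y) := by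
    intro x hx
    have a1 := (haddR _ _ _ _ _ _ _ _ (hk x hx) (h3 x hx)).2.2
    simpa using a1
  have h5 := hsumR X A₃ (fun x r => kp r.1 x * mx (kp r.1) A₃ (Gm r) Go x)
      (fun x => κ x * mx κ A₃ G Go x) (fun x => κ x * ∑ y ∈ A₃, κ y * lr x y)
      (fun x c => κ x * ∑ y ∈ A₃, κ y * gr x y c) h4
  refine ⟨_, _, h5, ?_⟩
  intro M gb hκ hM hgb hb
  have hs := hK.hs
  have hmas : mas κ A₃ G Go = MM κ A₃ G Go := by
    unfold mas MM mx
    refine Finset.sum_congr rfl fun x _ => ?_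
    rw [Finset.mul_sum]
    refine Finset.sum_congr rfl fun y _ => ?_
    ring
  have hM0 := mas_nonneg κ A₃ G Go hκ
  have hMM : mas κ A₃ G Go ≤ M := hmas ▸ hM
  have hr0 : ∀ c, 0 ≤ ro κ A₃ G (e c) := fun c => ro_nonneg κ A₃ G (e c) hκ
  have hrb : ∀ c, ro κ A₃ G (e c) ≤ gb := by
    intro c
    refine le_trans (le_of_eq ?_) (hb c)
    unfold ro
    refine Finset.sum_congr rfl fun x _ => ?_
    rw [hs x (e c)]
  have hcs : ∀ c, ∑ x ∈ A₃, ∑ y ∈ A₃,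
      κ x * κ y * (‖G x y - Go x y‖ * (‖G x (e c)‖ * ‖G (e c) y‖)) ≤ Real.sqrt M * gb := by
    intro c
    refine (mas_cs κ A₃ G Go (e c) hs hκ).trans ?_
    exact mul_le_mul (Real.sqrt_le_sqrt hMM) (hrb c) (hr0 c) (Real.sqrt_nonneg _)
  constructor
  · -- the drift
    have b0 : ∀ x y, lr x y = ∑ c,
        (2 * ((starRingEnd ℂ) (G x y - Go x y) * (G x (e c) * μ c * G (e c) y)).re +
          ‖G x (e c)‖ ^ 2 * ‖G (e c) y‖ ^ 2) := by
      intro x y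
      rw [hlr]
      simp only
      rw [Finset.sum_add_distrib, Finset.mul_sum, Complex.re_sum, Finset.mul_sum]
      congr 1
      refine Finset.sum_congr rfl fun c _ => ?_
      rw [norm_neg, norm_mul, mul_pow]
    have b1 : ∑ x ∈ A₃, κ x * ∑ y ∈ A₃, κ y * lr x y = ∑ c, ∑ x ∈ A₃, ∑ y ∈ A₃,
        (κ x * κ y) * (2 * ((starRingEnd ℂ) (G x y - Go x y) *
          (G x (e c) * μ c * G (e c) y)).re + ‖G x (e c)‖ ^ 2 * ‖G (e c) y‖ ^ 2) := by
      rw [Finset.sum_comm]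
      refine Finset.sum_congr rfl fun x _ => ?_
      rw [Finset.sum_comm, Finset.mul_sum]
      refine Finset.sum_congr rfl fun y _ => ?_
      rw [b0, ← Finset.mul_sum]
      ring
    rw [b1]
    refine Finset.sum_le_sum fun c _ => ?_
    have b2 : ∑ x ∈ A₃, ∑ y ∈ A₃, (κ x * κ y) * (2 * ((starRingEnd ℂ) (G x y - Go x y) *
          (G x (e c) * μ c * G (e c) y)).re + ‖G x (e c)‖ ^ 2 * ‖G (e c) y‖ ^ 2) ≤
        ∑ x ∈ A₃, ∑ y ∈ A₃, (2 * ‖μ c‖ * (κ x * κ y * (‖G x y - Go x y‖ *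
          (‖G x (e c)‖ * ‖G (e c) y‖))) + (κ x * ‖G x (e c)‖ ^ 2) * (κ y * ‖G y (e c)‖ ^ 2)) := by
      refine Finset.sum_le_sum fun x hx => Finset.sum_le_sum fun y hy => ?_
      have c1 := Complex.re_le_norm
        ((starRingEnd ℂ) (G x y - Go x y) * (G x (e c) * μ c * G (e c) y))
      rw [norm_mul, RCLike.norm_conj, norm_mul, norm_mul] at c1
      have c2 : 0 ≤ κ x * κ y := mul_nonneg (hκ x hx) (hκ y hy)
      rw [hs y (e c)]
      calc (κ x * κ y) * (2 * ((starRingEnd ℂ) (G x y - Go x y) *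
            (G x (e c) * μ c * G (e c) y)).re + ‖G x (e c)‖ ^ 2 * ‖G (e c) y‖ ^ 2) ≤
          (κ x * κ y) * (2 * (‖G x y - Go x y‖ * (‖G x (e c)‖ * ‖μ c‖ * ‖G (e c) y‖)) +
            ‖G x (e c)‖ ^ 2 * ‖G (e c) y‖ ^ 2) :=
            mul_le_mul_of_nonneg_left (by linarith) c2
        _ = _ := by ring
    refine b2.trans ?_
    have b3 : ∑ x ∈ A₃, ∑ y ∈ A₃, (2 * ‖μ c‖ * (κ x * κ y * (‖G x y - Go x y‖ *
          (‖G x (e c)‖ * ‖G (e c) y‖))) + (κ x * ‖G x (e c)‖ ^ 2) * (κ y * ‖G y (e c)‖ ^ 2)) =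
        2 * ‖μ c‖ * (∑ x ∈ A₃, ∑ y ∈ A₃, κ x * κ y * (‖G x y - Go x y‖ *
          (‖G x (e c)‖ * ‖G (e c) y‖))) + ro κ A₃ G (e c) ^ 2 := by
      unfold ro
      rw [sq, Finset.sum_mul_sum, Finset.mul_sum, ← Finset.sum_add_distrib]
      refine Finset.sum_congr rfl fun x _ => ?_
      rw [Finset.mul_sum, ← Finset.sum_add_distrib]
    rw [b3]
    refine add_le_add ?_ (pow_le_pow_left₀ (hr0 c) (hrb c) 2)
    calc 2 * ‖μ c‖ * (∑ x ∈ A₃, ∑ y ∈ A₃, κ x * κ y * (‖G x y - Go x y‖ *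
          (‖G x (e c)‖ * ‖G (e c) y‖))) ≤ 2 * ‖μ c‖ * (Real.sqrt M * gb) :=
          mul_le_mul_of_nonneg_left (hcs c) (by positivity)
      _ = _ := by ring
  · -- the gradient
    intro c
    have b1 : |∑ x ∈ A₃, κ x * ∑ y ∈ A₃, κ y * gr x y c| ≤ 2 * (Real.sqrt M * gb) := by
      refine le_trans ?_ (mul_le_mul_of_nonneg_left (hcs c) (by norm_num : (0 : ℝ) ≤ 2))
      refine (Finset.abs_sum_le_sum_abs _ _).trans ?_
      rw [Finset.mul_sum]
      refine Finset.sum_le_sum fun x hx => ?_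
      rw [abs_mul, abs_of_nonneg (hκ x hx)]
      refine (mul_le_mul_of_nonneg_left (Finset.abs_sum_le_sum_abs _ _) (hκ x hx)).trans ?_
      rw [Finset.mul_sum, Finset.mul_sum]
      refine Finset.sum_le_sum fun y hy => ?_
      rw [hgr]
      simp only
      have c1 := Complex.abs_re_le_norm
        ((starRingEnd ℂ) (G x y - Go x y) * -(G x (e c) * G (e c) y))
      rw [norm_mul, RCLike.norm_conj, norm_neg, norm_mul] at c1
      rw [abs_mul, abs_of_nonneg (hκ y hy), abs_mul, abs_two]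
      have c2 : 0 ≤ κ x * κ y := mul_nonneg (hκ x hx) (hκ y hy)
      calc κ x * (κ y * (2 * |((starRingEnd ℂ) (G x y - Go x y) *
            -(G x (e c) * G (e c) y)).re|)) =
          (κ x * κ y) * (2 * |((starRingEnd ℂ) (G x y - Go x y) *
            -(G x (e c) * G (e c) y)).re|) := by ring
        _ ≤ (κ x * κ y) * (2 * (‖G x y - Go x y‖ * (‖G x (e c)‖ * ‖G (e c) y‖))) :=
            mul_le_mul_of_nonneg_left (by linarith) c2
        _ = _ := by ring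
    have b2 := pow_le_pow_left₀ (abs_nonneg _) b1 2
    rw [sq_abs] at b2
    refine b2.trans (le_of_eq ?_)
    have hMn : 0 ≤ M := hM0.trans hMM
    rw [mul_pow, mul_pow, Real.sq_sqrt hMn]
    ring

end Pool.Agent.ATT.H97
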